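import Mathlib
import Pool.Agent.Results.MP_7c03a7_pr.DimGtOne

/-!
# A generating measure of isoperimetric dimension at least two on every countably infinite group
-/

set_option autoImplicit false

open MeasureTheory ProbabilityTheory
open scoped ENNReal NNReal Pointwise

namespace Q295.LRP

open Pool.Agent.Results.MP_7c03a7_pr.DimGtOne

/-- the weights `2^-(n+1)` -/
noncomputable def geo : PMF ℕ :=
  ⟨fun n => (2 : ℝ≥0∞)⁻¹ ^ (n + 1), by
    have h : ∑' n : ℕ, (2 : ℝ≥0∞)⁻¹ ^ (n + 1) = 1 := by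
      rw [ENNReal.tsum_geometric_add_one]
      rw [ENNReal.one_sub_inv_two, inv_inv]
      exact ENNReal.inv_mul_cancel (by norm_num) (by norm_num)
    exact h ▸ ENNReal.summable.hasSum⟩

theorem geo_apply (n : ℕ) : geo n = (2 : ℝ≥0∞)⁻¹ ^ (n + 1) := rfl

theorem exists_sets (Γ : Type*) [Group Γ] [Countable Γ] [Infinite Γ] :
    ∃ F : ℕ → Finset Γ, (∀ n g, g ∈ F n → g⁻¹ ∈ F n) ∧ (∀ n, 2 * 4 ^ n ≤ (F n).card) ∧
      (∀ g, ∃ n, g ∈ F n) := by
  classical
  obtain ⟨e⟩ : Nonempty (ℕ ≃ Γ) := by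
    have := nonempty_denumerable Γ
    obtain ⟨d⟩ := this
    exact ⟨(Denumerable.eqv Γ).symm⟩
  let A : ℕ → Finset Γ := fun n => (Finset.range (2 * 4 ^ n)).image e
  refine ⟨fun n => A n ∪ (A n)⁻¹, ?_, ?_, ?_⟩
  · intro n g hg
    simp only [Finset.mem_union, Finset.mem_inv'] at hg ⊢
    rw [inv_inv]
    exact hg.symm
  · intro n
    have h1 : (A n).card = 2 * 4 ^ n := by
      rw [Finset.card_image_of_injective _ e.injective, Finset.card_range]
    rw [← h1]
    exact Finset.card_le_card Finset.subset_union_left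
  · intro g
    refine ⟨e.symm g, Finset.mem_union_left _ ?_⟩
    simp only [A, Finset.mem_image, Finset.mem_range]
    refine ⟨e.symm g, ?_, e.apply_symm_apply g⟩
    have : e.symm g < 4 ^ (e.symm g) := Nat.lt_pow_self (by norm_num)
    omega

variable {Γ : Type*} [Group Γ]

/-- the mixture of the uniform distributions on the sets `F n` -/
noncomputable def mix (F : ℕ → Finset Γ) (hne : ∀ n, (F n).Nonempty) : PMF Γ :=
  geo.bind fun n => PMF.uniformOfFinset (F n) (hne n)

theorem mix_symm (F : ℕ → Finset Γ) (hne : ∀ n, (F n).Nonempty)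
    (hs : ∀ n g, g ∈ F n → g⁻¹ ∈ F n) (g : Γ) : mix F hne g = mix F hne g⁻¹ := by
  unfold mix
  rw [PMF.bind_apply, PMF.bind_apply]
  refine tsum_congr fun n => ?_
  congr 1
  by_cases hg : g ∈ F n
  · rw [PMF.uniformOfFinset_apply_of_mem _ hg, PMF.uniformOfFinset_apply_of_mem _ (hs n g hg)]
  · have hg' : g⁻¹ ∉ F n := fun h => hg (by simpa using hs n _ h)
    rw [PMF.uniformOfFinset_apply_of_notMem _ hg, PMF.uniformOfFinset_apply_of_notMem _ hg']

omit [Group Γ] in
theorem mix_support (F : ℕ → Finset Γ) (hne : ∀ n, (F n).Nonempty)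
    (hall : ∀ g, ∃ n, g ∈ F n) : (mix F hne).support = Set.univ := by
  ext g
  simp only [Set.mem_univ, iff_true]
  unfold mix
  rw [PMF.mem_support_bind_iff]
  obtain ⟨n, hn⟩ := hall g
  refine ⟨n, ?_, ?_⟩
  · rw [PMF.mem_support_iff, geo_apply]
    exact (ENNReal.pow_pos (by simp) _).ne'
  · rw [PMF.mem_support_uniformOfFinset_iff]
    exact hn

/-- the mixture as a generating measure -/
noncomputable def gm (F : ℕ → Finset Γ) (hne : ∀ n, (F n).Nonempty)
    (hs : ∀ n g, g ∈ F n → g⁻¹ ∈ F n) (hall : ∀ g, ∃ n, g ∈ F n) : GeneratingMeasure Γ where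
  mass := mix F hne
  symm := mix_symm F hne hs
  gen := by
    rw [mix_support F hne hall]
    exact Subgroup.closure_univ

theorem out_uniform (F : Finset Γ) (hF : F.Nonempty) (S : Finset Γ) (hS : 2 * S.card ≤ F.card)
    (g : Γ) : (2 : ℝ≥0∞)⁻¹ ≤
      ∑' h : {h : Γ // h ∉ S}, PMF.uniformOfFinset F hF (g⁻¹ * (h : Γ)) := by
  classical
  have htot : ∀ u : PMF Γ, ∑' h : Γ, u (g⁻¹ * h) = 1 := fun u =>
    ((Equiv.mulLeft g⁻¹).tsum_eq (fun y => u y)).trans u.tsum_coe
  have hsplit : ∀ f : Γ → ℝ≥0∞, ∑' h : Γ, f h =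
      ∑ h ∈ S, f h + ∑' h : {h : Γ // h ∉ S}, f h := by
    intro f
    have e1 := ENNReal.summable.tsum_add_tsum_compl (f := f) (s := (S : Set Γ))
      ENNReal.summable
    rw [← e1]
    congr 1
    exact Finset.tsum_subtype S f
  generalize hu : PMF.uniformOfFinset F hF = u
  have hcard : (0 : ℝ≥0∞) < F.card := by
    exact_mod_cast Finset.card_pos.2 hF
  have hle : ∑ h ∈ S, u (g⁻¹ * h) ≤ (2 : ℝ≥0∞)⁻¹ := by
    calc ∑ h ∈ S, u (g⁻¹ * h) ≤ ∑ _h ∈ S, (F.card : ℝ≥0∞)⁻¹ := by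
          refine Finset.sum_le_sum fun h _ => ?_
          by_cases hh : g⁻¹ * h ∈ F
          · rw [← hu, PMF.uniformOfFinset_apply_of_mem _ hh]
          · rw [← hu, PMF.uniformOfFinset_apply_of_notMem _ hh]
            exact zero_le
      _ = S.card * (F.card : ℝ≥0∞)⁻¹ := by rw [Finset.sum_const, nsmul_eq_mul]
      _ ≤ (2 : ℝ≥0∞)⁻¹ := by
          rw [← div_eq_mul_inv]
          refine ENNReal.div_le_of_le_mul ?_
          have h2 : (2 : ℝ≥0∞) * S.card ≤ F.card := by exact_mod_cast hS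
          calc (S.card : ℝ≥0∞) = 2⁻¹ * (2 * S.card) := by
                rw [← mul_assoc, ENNReal.inv_mul_cancel (by norm_num) (by norm_num), one_mul]
            _ ≤ 2⁻¹ * F.card := by gcongr
  have hsp := hsplit (fun h => u (g⁻¹ * h))
  rw [htot u] at hsp
  have h1 : (2 : ℝ≥0∞)⁻¹ + (2 : ℝ≥0∞)⁻¹ = 1 := ENNReal.inv_two_add_inv_two
  have h3 : (2 : ℝ≥0∞)⁻¹ + (2 : ℝ≥0∞)⁻¹ ≤
      (2 : ℝ≥0∞)⁻¹ + ∑' h : {h : Γ // h ∉ S}, u (g⁻¹ * (h : Γ)) := by
    rw [h1, hsp]
    gcongr
  exact (ENNReal.add_le_add_iff_left (by norm_num)).1 h3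

theorem boundary_gm (F : ℕ → Finset Γ) (hne : ∀ n, (F n).Nonempty)
    (hs : ∀ n g, g ∈ F n → g⁻¹ ∈ F n) (hall : ∀ g, ∃ n, g ∈ F n) (S : Finset Γ) (n : ℕ)
    (hS : 2 * S.card ≤ (F n).card) :
    (S.card : ℝ≥0∞) * (2 : ℝ≥0∞)⁻¹ ^ (n + 2) ≤ boundary (gm F hne hs hall) S := by
  unfold boundary
  calc (S.card : ℝ≥0∞) * (2 : ℝ≥0∞)⁻¹ ^ (n + 2) = ∑ _g ∈ S, (2 : ℝ≥0∞)⁻¹ ^ (n + 2) := by
        rw [Finset.sum_const, nsmul_eq_mul]
    _ ≤ _ := by
        refine Finset.sum_le_sum fun g _ => ?_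
        calc (2 : ℝ≥0∞)⁻¹ ^ (n + 2) = geo n * (2 : ℝ≥0∞)⁻¹ := by
              rw [geo_apply, ← pow_succ]
          _ ≤ geo n * ∑' h : {h : Γ // h ∉ S},
                PMF.uniformOfFinset (F n) (hne n) (g⁻¹ * (h : Γ)) := by
              gcongr
              exact out_uniform (F n) (hne n) S hS g
          _ = ∑' h : {h : Γ // h ∉ S},
                geo n * PMF.uniformOfFinset (F n) (hne n) (g⁻¹ * (h : Γ)) := by
              rw [ENNReal.tsum_mul_left]
          _ ≤ _ := by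
              refine ENNReal.tsum_le_tsum fun h => ?_
              show _ ≤ mix F hne _
              unfold mix
              rw [PMF.bind_apply]
              exact ENNReal.le_tsum n

theorem dim_gm (F : ℕ → Finset Γ) (hne : ∀ n, (F n).Nonempty)
    (hs : ∀ n g, g ∈ F n → g⁻¹ ∈ F n) (hall : ∀ g, ∃ n, g ∈ F n)
    (hc : ∀ n, 2 * 4 ^ n ≤ (F n).card) : 1 < dim (gm F hne hs hall) := by
  have h2 : ENNReal.ofReal 2 ≤ dim (gm F hne hs hall) := by
    unfold dim
    refine le_sSup ⟨2, by norm_num, ?_, rfl⟩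
    have hlow : (2 : ℝ≥0∞)⁻¹ ^ 3 ≤ ⨅ (S : Finset Γ) (_ : S.Nonempty),
        boundary (gm F hne hs hall) S / ENNReal.ofReal ((S.card : ℝ) ^ (((2 : ℝ) - 1) / 2)) := by
      refine le_iInf₂ fun S hS => ?_
      have hSc : 0 < S.card := Finset.card_pos.2 hS
      have hpos : (0 : ℝ) < (S.card : ℝ) ^ (((2 : ℝ) - 1) / 2) :=
        Real.rpow_pos_of_pos (by exact_mod_cast hSc) _
      rw [ENNReal.le_div_iff_mul_le (Or.inl (ENNReal.ofReal_pos.2 hpos).ne')
        (Or.inl ENNReal.ofReal_ne_top)]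
      -- the level
      set n := Nat.clog 4 S.card with hn
      have h4 : S.card ≤ 4 ^ n := Nat.le_pow_clog (by norm_num) _
      have h5 : 4 ^ n ≤ 4 * S.card := by
        by_cases h0 : n = 0
        · rw [h0]; omega
        · have h6 : 1 < S.card := by
            by_contra hno
            exact h0 (Nat.clog_of_right_le_one (by omega) _)
          have h7 := Nat.pow_pred_clog_lt_self (b := 4) (by norm_num) h6
          rw [← hn] at h7
          have h8 : 4 ^ n = 4 * 4 ^ (n.pred) := by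
            rw [← pow_succ']
            congr 1
            simp only [Nat.pred_eq_sub_one]
            omega
          rw [h8]
          omega
      refine le_trans ?_ (boundary_gm F hne hs hall S n (le_trans (by omega) (hc n)))
      have h9 : (S.card : ℝ) ^ (((2 : ℝ) - 1) / 2) = Real.sqrt S.card := by
        rw [Real.sqrt_eq_rpow]; norm_num
      rw [h9]
      have hreal : (2 : ℝ)⁻¹ ^ 3 * Real.sqrt S.card ≤ S.card * (2 : ℝ)⁻¹ ^ (n + 2) := by
        have h10 : ((2 : ℝ) ^ n) ^ 2 ≤ 4 * S.card := by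
          rw [← pow_mul, mul_comm n 2, pow_mul]
          norm_num
          exact_mod_cast h5
        have hsq : Real.sqrt S.card ^ 2 = S.card := Real.sq_sqrt (Nat.cast_nonneg _)
        have hs0 : 0 < Real.sqrt S.card := Real.sqrt_pos.2 (by exact_mod_cast hSc)
        have h11 : (2 : ℝ) ^ n ≤ 2 * Real.sqrt S.card := by
          have h12 : ((2 : ℝ) ^ n) ^ 2 ≤ (2 * Real.sqrt S.card) ^ 2 := by
            rw [mul_pow, hsq]; linarith
          exact le_of_sq_le_sq h12 (by positivity)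
        have hp : (0 : ℝ) < 2 ^ n := by positivity
        rw [inv_pow, inv_pow, pow_add]
        have e1 : (S.card : ℝ) * (2 ^ n * 2 ^ 2)⁻¹ = Real.sqrt S.card * (Real.sqrt S.card / (2 ^ n)) / 4 := by
          rw [mul_inv]
          field_simp
          rw [hsq]
          ring
        rw [e1]
        have h13 : (1 : ℝ) / 2 ≤ Real.sqrt S.card / 2 ^ n := by
          rw [le_div_iff₀ hp]; linarith
        nlinarith
      have := ENNReal.ofReal_le_ofReal hreal
      rw [ENNReal.ofReal_mul (by positivity), ENNReal.ofReal_mul (by positivity),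
        ENNReal.ofReal_natCast, ENNReal.ofReal_pow (by positivity),
        ENNReal.ofReal_pow (by positivity), ENNReal.ofReal_inv_of_pos (by norm_num),
        ENNReal.ofReal_ofNat] at this
      exact this
    exact lt_of_lt_of_le (ENNReal.pow_pos (by simp) _) hlow
  refine lt_of_lt_of_le ?_ h2
  rw [← ENNReal.ofReal_one]
  exact (ENNReal.ofReal_lt_ofReal_iff (by norm_num)).2 (by norm_num)

end Q295.LRP
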